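import Pool.Agent.H28.N6.Targets

set_option autoImplicit false
open MeasureTheory Pool.Agent.H28.N6

namespace Pool.Agent.H12.N6D

lemma qf_sub {F ι : Type} [CommRing F] [Fintype ι] (G : Matrix ι ι F) (hG : G.transpose = G)
    (z z' : ι → F) : qf G z - qf G z' = dotProduct (z - z') (G.mulVec (z + z')) := by
  unfold qf
  rw [Matrix.mulVec_add, dotProduct_add, sub_dotProduct, sub_dotProduct]
  have h : dotProduct z' (G.mulVec z) = dotProduct z (G.mulVec z') := by
    rw [Matrix.dotProduct_mulVec, ← Matrix.mulVec_transpose, hG, dotProduct_comm]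
  rw [h]
  ring

lemma isOpen_nle {F : Type} [NontriviallyNormedField F] [IsUltrametricDist F] (r : ℝ) (hr : 0 < r) :
    IsOpen {x : F | ‖x‖ ≤ r} := by
  have : {x : F | ‖x‖ ≤ r} = Metric.closedBall 0 r := by
    ext x
    simp
  rw [this]
  exact IsUltrametricDist.isOpen_closedBall _ hr.ne'

lemma continuous_qf {F ι : Type} [NontriviallyNormedField F] [Fintype ι] (G : Matrix ι ι F) :
    Continuous (qf G) := by
  unfold qf
  simp only [dotProduct, Matrix.mulVec]
  fun_prop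

theorem pf_BOX (hBAL : T_BAL) (hONE : T_ONE) (hFUB : T_FUB) : T_BOX := by
  intro F _ _ _ _ _ D n G z0 i j k a hG h1 h2 m hm
  have hp : 0 < ‖D.p‖ := norm_pos_iff.2 D.p0
  have hq : (0 : ℝ) < D.q := by
    have := D.hq
    positivity
  have hpj : ‖D.p ^ j‖ = ‖D.p‖ ^ j := norm_pow _ _
  let W : ℕ → Set (Fin (n + 1) → F) := fun m =>
    {w | (∀ l, ‖w l‖ ≤ 1) ∧ ‖qf G (D.p ^ j • w + z0) + a‖ ≤ ‖D.p‖ ^ m}
  obtain ⟨-, hB2, hB3, -, -, -⟩ := hBAL F D (Fin (n + 1))
  have key : ∀ m, vol D {z | (∀ l, ‖z l - z0 l‖ ≤ ‖D.p‖ ^ j) ∧ ‖qf G z + a‖ ≤ ‖D.p‖ ^ m} =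
      ((((D.q : ℝ) ^ (Fintype.card (Fin (n + 1)))) ^ j))⁻¹ * vol D (W m) := by
    intro m
    have e1 := hB2 {z | (∀ l, ‖z l - z0 l‖ ≤ ‖D.p‖ ^ j) ∧ ‖qf G z + a‖ ≤ ‖D.p‖ ^ m} z0
    have e2 := hB3 ((fun z => z + z0) ⁻¹' {z | (∀ l, ‖z l - z0 l‖ ≤ ‖D.p‖ ^ j) ∧
      ‖qf G z + a‖ ≤ ‖D.p‖ ^ m}) j (D.p ^ j) hpj
    have e3 : (fun z => D.p ^ j • z) ⁻¹' ((fun z => z + z0) ⁻¹'
        {z | (∀ l, ‖z l - z0 l‖ ≤ ‖D.p‖ ^ j) ∧ ‖qf G z + a‖ ≤ ‖D.p‖ ^ m}) = W m := by
      ext w
      show ((∀ l, ‖(D.p ^ j • w + z0) l - z0 l‖ ≤ ‖D.p‖ ^ j) ∧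
        ‖qf G (D.p ^ j • w + z0) + a‖ ≤ ‖D.p‖ ^ m) ↔ ((∀ l, ‖w l‖ ≤ 1) ∧
          ‖qf G (D.p ^ j • w + z0) + a‖ ≤ ‖D.p‖ ^ m)
      have e4 : ∀ l, ‖(D.p ^ j • w + z0) l - z0 l‖ ≤ ‖D.p‖ ^ j ↔ ‖w l‖ ≤ 1 := by
        intro l
        rw [Pi.add_apply, add_sub_cancel_right, Pi.smul_apply, smul_eq_mul, norm_mul, hpj]
        constructor
        · intro h
          have : ‖D.p‖ ^ j * ‖w l‖ ≤ ‖D.p‖ ^ j * 1 := by rw [mul_one]; exact h
          exact le_of_mul_le_mul_left this (by positivity)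
        · intro h
          calc _ ≤ ‖D.p‖ ^ j * 1 := mul_le_mul_of_nonneg_left h (by positivity)
            _ = _ := mul_one _
      simp only [e4]
    rw [e3, e1] at e2
    rw [e2, ← mul_assoc, inv_mul_cancel₀ (by positivity), one_mul]
  rw [key m, key (j + k)]
  have hopen : ∀ m, IsOpen (W m) := by
    intro m
    have e1 : W m = (⋂ l, (fun w : Fin (n + 1) → F => w l) ⁻¹' {x : F | ‖x‖ ≤ 1}) ∩
        ((fun w : Fin (n + 1) → F => qf G (D.p ^ j • w + z0) + a) ⁻¹' {x : F | ‖x‖ ≤ ‖D.p‖ ^ m}) := by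
      ext w
      simp [W]
    rw [e1]
    refine IsOpen.inter (isOpen_iInter_of_finite fun l => ?_) ?_
    · exact (isOpen_nle 1 one_pos).preimage (continuous_apply l)
    · refine (isOpen_nle _ (by positivity)).preimage ?_
      exact ((continuous_qf G).comp (by fun_prop)).add continuous_const
  have hbdd : ∀ m, Bornology.IsBounded (W m) := by
    intro m
    refine (Metric.isBounded_closedBall (x := (0 : Fin (n + 1) → F)) (r := 1)).subset ?_
    rintro w ⟨hw, -⟩
    rw [mem_closedBall_zero_iff, pi_norm_le_iff_of_nonneg zero_le_one]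
    exact hw
  have hmain : ∀ y : Fin n → F, (D.μ {s : F | i.insertNth s y ∈ W m}).toReal =
      ((D.q : ℝ) ^ (m - (j + k)))⁻¹ * (D.μ {s : F | i.insertNth s y ∈ W (j + k)}).toReal := by
    intro y
    by_cases hy : ∀ l, ‖y l‖ ≤ 1
    · have hs : ∀ m, {s : F | i.insertNth s y ∈ W m} =
          {s : F | ‖s‖ ≤ 1 ∧ ‖qf G (D.p ^ j • (i.insertNth s y : Fin (n + 1) → F) + z0) + a‖ ≤
            ‖D.p‖ ^ m} := by
        intro m
        ext s
        constructor
        · rintro ⟨hs1, hs2⟩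
          exact ⟨by simpa using hs1 i, hs2⟩
        · rintro ⟨hs1, hs2⟩
          refine ⟨?_, hs2⟩
          rw [Fin.forall_iff_succAbove i]
          exact ⟨by simpa using hs1, by simpa using hy⟩
      have hψ : ∀ s t : F, ‖s‖ ≤ 1 → ‖t‖ ≤ 1 →
          ‖(qf G (D.p ^ j • (i.insertNth s y : Fin (n + 1) → F) + z0) + a) -
            (qf G (D.p ^ j • (i.insertNth t y : Fin (n + 1) → F) + z0) + a)‖ =
            ‖D.p‖ ^ (j + k) * ‖s - t‖ := by
        intro s t hs ht
        have hw : ∀ (r : F), ‖r‖ ≤ 1 → ∀ l, ‖(i.insertNth r y : Fin (n + 1) → F) l‖ ≤ 1 := by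
          intro r hr l
          revert l
          rw [Fin.forall_iff_succAbove i]
          exact ⟨by simpa using hr, by simpa using hy⟩
        rw [add_sub_add_right_eq_sub, qf_sub G hG]
        set w : Fin (n + 1) → F := i.insertNth s y with hwd
        set w' : Fin (n + 1) → F := i.insertNth t y with hwd'
        have d1 : D.p ^ j • w + z0 - (D.p ^ j • w' + z0) = Pi.single i (D.p ^ j * (s - t)) := by
          ext l
          revert l
          rw [Fin.forall_iff_succAbove i]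
          constructor
          · simp [hwd, hwd', mul_sub]
          · intro l
            simp [hwd, hwd']
        have d2 : D.p ^ j • w + z0 + (D.p ^ j • w' + z0) = (2 : F) • z0 + D.p ^ j • (w + w') := by
          rw [smul_add, two_smul]
          abel
        rw [d1, d2, single_dotProduct, Matrix.mulVec_add, Matrix.mulVec_smul, Matrix.mulVec_smul,
          Pi.add_apply, Pi.smul_apply, Pi.smul_apply, smul_eq_mul, smul_eq_mul]
        have d3 : ‖D.p ^ j * G.mulVec (w + w') i‖ < ‖D.p‖ ^ k := by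
          have d4 : D.p ^ j * G.mulVec (w + w') i = ∑ v, D.p ^ j * (G i v * (w + w') v) := by
            rw [Matrix.mulVec, dotProduct, Finset.mul_sum]
          rw [d4]
          obtain ⟨v, -, hv⟩ := IsUltrametricDist.exists_norm_finsetSum_le_of_nonempty
            (t := (Finset.univ : Finset (Fin (n + 1)))) Finset.univ_nonempty
            (fun v => D.p ^ j * (G i v * (w + w') v))
          refine lt_of_le_of_lt hv (lt_of_le_of_lt ?_ (h2 i v))
          rw [norm_mul, norm_mul, hpj, ← mul_assoc]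
          have d5 : ‖(w + w') v‖ ≤ 1 :=
            (IsUltrametricDist.norm_add_le_max _ _).trans (max_le (hw s hs v) (hw t ht v))
          calc _ ≤ ‖D.p‖ ^ j * ‖G i v‖ * 1 := mul_le_mul_of_nonneg_left d5 (by positivity)
            _ = _ := mul_one _
        have d6 : ‖2 * G.mulVec z0 i + D.p ^ j * G.mulVec (w + w') i‖ = ‖D.p‖ ^ k := by
          rw [IsUltrametricDist.norm_add_eq_max_of_norm_ne_norm (by rw [h1]; exact d3.ne'), h1,
            max_eq_left d3.le]
        rw [norm_mul, norm_mul, d6, hpj, pow_add]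
        ring
      have o1 := hONE F D (fun s => qf G (D.p ^ j • (i.insertNth s y : Fin (n + 1) → F) + z0) + a)
        (j + k) m hψ hm
      have o2 := hONE F D (fun s => qf G (D.p ^ j • (i.insertNth s y : Fin (n + 1) → F) + z0) + a)
        (j + k) (j + k) hψ le_rfl
      rw [hs m, hs (j + k), o1, o2]
      split_ifs
      · simp
      · simp
    · have hs : ∀ m, {s : F | i.insertNth s y ∈ W m} = ∅ := by
        intro m
        rw [Set.eq_empty_iff_forall_notMem]
        rintro s ⟨hs1, -⟩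
        apply hy
        intro l
        have := hs1 (i.succAbove l)
        simpa using this
      rw [hs m, hs (j + k)]
      simp
  have f1 := (hFUB F D n (W m) (hopen m) (hbdd m) i).2
  have f2 := (hFUB F D n (W (j + k)) (hopen _) (hbdd _) i).2
  rw [f1, f2]
  simp_rw [hmain]
  rw [integral_const_mul]
  ring

end Pool.Agent.H12.N6D
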