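import Pool.Agent.H28.N6.Targets

set_option autoImplicit false
set_option linter.unusedSectionVars false
open MeasureTheory Pool.Agent.H28.N6

namespace Pool.Agent.H12.N6D

section

variable {F : Type} [NontriviallyNormedField F] [IsUltrametricDist F] [ProperSpace F]
    [MeasurableSpace F] [BorelSpace F] (D : Dat F)

/-- the ball around `r` -/
def ball1 (r : F) (K : ℕ) : Set F := {t : F | ‖t - r‖ ≤ ‖D.p‖ ^ K}

lemma ball1_eq (r : F) (K : ℕ) : ball1 D r K = Metric.closedBall r (‖D.p‖ ^ K) := by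
  ext t
  simp [ball1, dist_eq_norm]

lemma ball1_meas (r : F) (K : ℕ) : MeasurableSet (ball1 D r K) := by
  rw [ball1_eq]
  exact Metric.isClosed_closedBall.measurableSet

lemma ball1_cpt (r : F) (K : ℕ) : IsCompact (ball1 D r K) := by
  rw [ball1_eq]
  exact isCompact_closedBall _ _

lemma mu_ball1 (hBAL : T_BAL) (r : F) (K : ℕ) :
    (D.μ (ball1 D r K)).toReal = ((D.q : ℝ) ^ K)⁻¹ := by
  have := D.haar
  obtain ⟨h1, -⟩ := hBAL F D (Fin 1)
  have h2 := h1 K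
  have h3 : {z : Fin 1 → F | ∀ i, ‖z i‖ ≤ ‖D.p‖ ^ K} = Set.pi Set.univ (fun _ : Fin 1 => {x : F | ‖x‖ ≤ ‖D.p‖ ^ K}) := by
    ext z
    simp
  rw [vol, h3, Measure.pi_pi] at h2
  have h4 : ball1 D r K = (fun t => t + (-r)) ⁻¹' {x : F | ‖x‖ ≤ ‖D.p‖ ^ K} := by
    ext t
    simp [ball1, sub_eq_add_neg]
  rw [h4, measure_preimage_add_right]
  simpa using h2

lemma shell {r : F} {k : ℕ} {t : F} (h1 : t ∈ ball1 D r k) (h2 : t ∉ ball1 D r (k + 1)) :
    ‖t - r‖ = ‖D.p‖ ^ k := by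
  have hp : 0 < ‖D.p‖ := norm_pos_iff.2 D.p0
  refine le_antisymm h1 ?_
  by_contra hlt
  rw [not_le] at hlt
  apply h2
  have h3 : ‖(t - r) / D.p ^ k‖ < 1 := by
    rw [norm_div, norm_pow, div_lt_one (by positivity)]
    exact hlt
  have h4 := D.gen _ h3
  rw [norm_div, norm_pow, div_le_iff₀ (by positivity)] at h4
  show ‖t - r‖ ≤ ‖D.p‖ ^ (k + 1)
  rw [pow_succ, mul_comm]
  exact h4

lemma ball1_anti (r : F) (k : ℕ) : ball1 D r (k + 1) ⊆ ball1 D r k := by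
  intro t ht
  have hp : 0 < ‖D.p‖ := norm_pos_iff.2 D.p0
  have h1 : ‖t - r‖ ≤ ‖D.p‖ ^ (k + 1) := ht
  refine h1.trans ?_
  exact pow_le_pow_of_le_one hp.le D.p1.le (Nat.le_succ k)

lemma sum_geo (s : ℝ) (hs : 1 < s) (K N : ℕ) :
    ∑ k ∈ Finset.range N, (s ^ (K + k))⁻¹ ≤ (1 - s⁻¹)⁻¹ * (s ^ K)⁻¹ := by
  have h0 : (0 : ℝ) < s := by linarith
  have h1 : s⁻¹ < 1 := inv_lt_one_of_one_lt₀ hs
  have h2 : ∀ k, (s ^ (K + k))⁻¹ = (s ^ K)⁻¹ * (s⁻¹) ^ k := by
    intro k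
    rw [pow_add, mul_inv, inv_pow]
  simp_rw [h2]
  rw [← Finset.mul_sum, mul_comm]
  refine mul_le_mul_of_nonneg_right ?_ (by positivity)
  have h3 := geom_sum_eq (ne_of_lt h1) N
  rw [h3]
  have h4 : (s⁻¹ ^ N - 1) / (s⁻¹ - 1) = (1 - s⁻¹ ^ N) / (1 - s⁻¹) := by
    rw [← neg_div_neg_eq]
    congr 1 <;> ring
  rw [h4, div_eq_mul_inv, mul_comm]
  have h5 : (0 : ℝ) < 1 - s⁻¹ := by linarith
  have h6 : 1 - s⁻¹ ^ N ≤ 1 := by
    have : (0 : ℝ) ≤ s⁻¹ ^ N := by positivity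
    linarith
  calc (1 - s⁻¹)⁻¹ * (1 - s⁻¹ ^ N) ≤ (1 - s⁻¹)⁻¹ * 1 :=
        mul_le_mul_of_nonneg_left h6 (by positivity)
    _ = _ := mul_one _

end

theorem pf_CH1 (hNRR : T_NRR) (hMEA : T_MEA) (hBAL : T_BAL) : T_CH1 := by
  intro F _ _ _ _ _ D h2 A B hA hB r hr hr' hiso
  have := D.haar
  obtain ⟨j, C, hC⟩ := hNRR F D h2 A B hA hB r hr hr' hiso
  have hp : 0 < ‖D.p‖ := norm_pos_iff.2 D.p0
  have hq2 : (2 : ℝ) ≤ D.q := by exact_mod_cast D.hq
  set s := Real.sqrt D.q with hs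
  have hs1 : 1 < s := by
    rw [hs, Real.lt_sqrt (by norm_num)]
    linarith
  have hs0 : 0 < s := by linarith
  have hss : s ^ 2 = D.q := Real.sq_sqrt (by positivity)
  have hC0 : 0 ≤ C := by
    have h1 := hC (r + D.p ^ j) j 0 (by rw [add_sub_cancel_left, norm_pow]) le_rfl
    have h3 := (abs_nonneg _).trans h1
    by_contra hneg
    rw [not_le] at hneg
    have : C * s ^ j * ((D.q : ℝ) ^ (2 * 0))⁻¹ < 0 := by
      have : 0 < s ^ j * ((D.q : ℝ) ^ (2 * 0))⁻¹ := by positivity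
      nlinarith
    linarith
  refine ⟨j, C * (1 - s⁻¹)⁻¹, ?_⟩
  intro K m hK
  set f : F → ℝ := fun t => TT D.q (V D (A + t • B) 0) m with hf
  have hfc : Continuous f := (hMEA F D A B m).2
  have hint : ∀ k, IntegrableOn f (ball1 D r k) D.μ := fun k =>
    hfc.continuousOn.integrableOn_compact (ball1_cpt D r k)
  have hshell : ∀ k, j ≤ k → |∫ t in ball1 D r k \ ball1 D r (k + 1), f t ∂D.μ| ≤
      C * ((D.q : ℝ) ^ (2 * m))⁻¹ * (s ^ k)⁻¹ := by
    intro k hk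
    have h1 : ∀ t ∈ ball1 D r k \ ball1 D r (k + 1), ‖f t‖ ≤ C * s ^ k * ((D.q : ℝ) ^ (2 * m))⁻¹ := by
      rintro t ⟨ht1, ht2⟩
      exact hC t k m (shell D ht1 ht2) hk
    have hfin : D.μ (ball1 D r k) < ⊤ := (ball1_cpt D r k).measure_lt_top
    have hfin' : D.μ (ball1 D r k \ ball1 D r (k + 1)) < ⊤ :=
      lt_of_le_of_lt (measure_mono Set.sdiff_subset) hfin
    have h3 := norm_setIntegral_le_of_norm_le_const hfin' h1
    refine h3.trans ?_
    have h4 : (D.μ (ball1 D r k \ ball1 D r (k + 1))).toReal ≤ ((D.q : ℝ) ^ k)⁻¹ := by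
      rw [← mu_ball1 D hBAL r k]
      exact ENNReal.toReal_mono hfin.ne (measure_mono Set.sdiff_subset)
    calc C * s ^ k * ((D.q : ℝ) ^ (2 * m))⁻¹ * (D.μ (ball1 D r k \ ball1 D r (k + 1))).toReal
        ≤ C * s ^ k * ((D.q : ℝ) ^ (2 * m))⁻¹ * ((D.q : ℝ) ^ k)⁻¹ :=
          mul_le_mul_of_nonneg_left h4 (by positivity)
      _ = C * ((D.q : ℝ) ^ (2 * m))⁻¹ * (s ^ k)⁻¹ := by
          rw [← hss]
          field_simp
          rw [← pow_mul, ← pow_mul, mul_comm k 2]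
  have hsplit : ∀ k, ∫ t in ball1 D r k, f t ∂D.μ =
      (∫ t in ball1 D r k \ ball1 D r (k + 1), f t ∂D.μ) + ∫ t in ball1 D r (k + 1), f t ∂D.μ := by
    intro k
    rw [← setIntegral_union Set.disjoint_sdiff_left (ball1_meas D r (k + 1))
      ((hint k).mono_set Set.sdiff_subset) (hint (k + 1)), Set.sdiff_union_of_subset (ball1_anti D r k)]
  have hind : ∀ N, |∫ t in ball1 D r K, f t ∂D.μ| ≤
      C * ((D.q : ℝ) ^ (2 * m))⁻¹ * (∑ k ∈ Finset.range N, (s ^ (K + k))⁻¹) +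
        |∫ t in ball1 D r (K + N), f t ∂D.μ| := by
    intro N
    induction N with
    | zero => simp
    | succ N ih =>
      refine ih.trans ?_
      rw [Finset.sum_range_succ, mul_add]
      have h1 := hsplit (K + N)
      have h3 := hshell (K + N) (by omega)
      have h4 : |∫ t in ball1 D r (K + N), f t ∂D.μ| ≤ C * ((D.q : ℝ) ^ (2 * m))⁻¹ * (s ^ (K + N))⁻¹ +
          |∫ t in ball1 D r (K + N + 1), f t ∂D.μ| := by
        rw [h1]
        exact (abs_add_le _ _).trans (add_le_add_left h3 _)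
      have h5 : K + (N + 1) = K + N + 1 := by omega
      rw [h5]
      linarith
  obtain ⟨M, hM⟩ := (ball1_cpt D r 0).exists_bound_of_continuousOn (f := f) hfc.continuousOn
  have hM0 : 0 ≤ M := (norm_nonneg _).trans (hM r (by
    show ‖r - r‖ ≤ ‖D.p‖ ^ 0
    simp))
  have hsub : ∀ k, ball1 D r k ⊆ ball1 D r 0 := by
    intro k
    induction k with
    | zero => exact subset_rfl
    | succ k ih => exact (ball1_anti D r k).trans ih
  have hrest : ∀ N, |∫ t in ball1 D r (K + N), f t ∂D.μ| ≤ M * ((D.q : ℝ) ^ (K + N))⁻¹ := by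
    intro N
    have h3 := norm_setIntegral_le_of_norm_le_const (f := f) (μ := D.μ) (s := ball1 D r (K + N))
      ((ball1_cpt D r (K + N)).measure_lt_top) (fun t ht => hM t (hsub _ ht))
    refine h3.trans ?_
    have h4 := mu_ball1 D hBAL r (K + N)
    rw [Measure.real, h4]
  have hlim : Filter.Tendsto (fun N : ℕ => C * ((D.q : ℝ) ^ (2 * m))⁻¹ * ((1 - s⁻¹)⁻¹ * (s ^ K)⁻¹) +
      M * ((D.q : ℝ) ^ (K + N))⁻¹) Filter.atTop
      (nhds (C * ((D.q : ℝ) ^ (2 * m))⁻¹ * ((1 - s⁻¹)⁻¹ * (s ^ K)⁻¹) + M * 0)) := by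
    refine Filter.Tendsto.const_add _ (Filter.Tendsto.const_mul _ ?_)
    have h1 : Filter.Tendsto (fun N : ℕ => ((D.q : ℝ) ^ (K + N))) Filter.atTop Filter.atTop := by
      refine (tendsto_pow_atTop_atTop_of_one_lt (by linarith : (1 : ℝ) < D.q)).comp ?_
      exact Filter.tendsto_atTop_mono (fun N => Nat.le_add_left N K) Filter.tendsto_id
    exact tendsto_inv_atTop_zero.comp h1
  have hfinal := ge_of_tendsto' hlim (b := |∫ t in ball1 D r K, f t ∂D.μ|) (fun N => by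
    refine (hind N).trans (add_le_add ?_ (hrest N))
    exact mul_le_mul_of_nonneg_left (sum_geo s hs1 K N) (by positivity))
  show |∫ t in ball1 D r K, f t ∂D.μ| ≤ _
  refine hfinal.trans (le_of_eq ?_)
  ring

end Pool.Agent.H12.N6D
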